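import Mathlib
import Pool.Agent.R821.FreeT2

/-!
# The level `F_4` of the free topological group on `C ⊕ D`
-/

set_option autoImplicit false

open Filter Topology Set Pointwise

namespace Pool.Agent.W5h67.Four

open Pool.Agent.R821

universe u v

/-! ### Permutations of a discrete set -/

section perm

variable (S : Type u)

/-- the topology of pointwise convergence on self maps of a discrete set -/
@[reducible] def endTop : TopologicalSpace (Function.End S) :=
  @Pi.topologicalSpace S (fun _ => S) (fun _ => ⊥)

attribute [local instance] endTop FG.topF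

instance : ContinuousMul (Function.End S) := by
  let _ : TopologicalSpace S := ⊥
  have hS : DiscreteTopology S := ⟨rfl⟩
  refine ⟨?_⟩
  refine continuous_pi fun s => ?_
  have h1 : Continuous fun q : (S → S) × S => q.1 q.2 := by
    rw [continuous_prod_of_discrete_right]
    intro b
    exact continuous_apply b
  have h2 : Continuous fun p : (S → S) × (S → S) => (p.1, p.2 s) :=
    continuous_fst.prodMk ((continuous_apply s).comp continuous_snd)
  exact h1.comp h2

/-- the hom of permutations to units of the monoid of self maps -/
def toUnits : Equiv.Perm S →* (Function.End S)ˣ := (Equiv.Perm.equivUnitsEnd (α := S)).toMonoidHom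

variable {S}

theorem toUnits_val (f : Equiv.Perm S) (s : S) : (toUnits S f).val s = f s := rfl

theorem toUnits_inv (f : Equiv.Perm S) (s : S) : (toUnits S f)⁻¹.val s = f⁻¹ s := rfl

/-- Stabilisers of points are open for an action of the free group by permutations in which the
generators act locally constantly. -/
theorem isOpen_stab {X : Type v} [TopologicalSpace X] (σ : X → Equiv.Perm S)
    (h1 : ∀ s : S, IsLocallyConstant fun x => σ x s)
    (h2 : ∀ s : S, IsLocallyConstant fun x => (σ x)⁻¹ s) (s : S) :
    IsOpen {g : FreeGroup X | FreeGroup.lift σ g s = s} := by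
  let _ : TopologicalSpace S := ⊥
  have hS : DiscreteTopology S := ⟨rfl⟩
  have hc : Continuous fun x => toUnits S (σ x) := by
    rw [Units.continuous_iff]
    constructor
    · exact continuous_pi fun s => (IsLocallyConstant.iff_continuous _).1 (h1 s)
    · exact continuous_pi fun s => (IsLocallyConstant.iff_continuous _).1 (h2 s)
  have h3 := FG.lift_continuous hc
  have h4 : ∀ g : FreeGroup X, FreeGroup.lift (fun x => toUnits S (σ x)) g =
      toUnits S (FreeGroup.lift σ g) := by
    intro g
    rw [← MonoidHom.comp_apply]
    congr 1
    ext1 x
    simp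
  have h5 : Continuous fun g : FreeGroup X =>
      (FreeGroup.lift (fun x => toUnits S (σ x)) g).val s := by
    have h8 : Continuous fun e : Function.End S => (e s : S) := continuous_apply s
    exact h8.comp (Units.continuous_val.comp h3)
  have h6 : IsOpen ({s} : Set S) := isOpen_discrete _
  have h7 := h6.preimage h5
  have h9 : {g : FreeGroup X | FreeGroup.lift σ g s = s} =
      (fun g : FreeGroup X => (FreeGroup.lift (fun x => toUnits S (σ x)) g).val s) ⁻¹' {s} := by
    ext g
    change FreeGroup.lift σ g s = s ↔ (FreeGroup.lift (fun x => toUnits S (σ x)) g).val s = s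
    rw [h4, toUnits_val]
  rw [h9]
  exact h7

end perm

/-! ### Discrete quotients -/

attribute [local instance] FG.topF

theorem isOpen_map_eq {X : Type u} [TopologicalSpace X] {Y : Type v} (f : X → Y)
    (hf : IsLocallyConstant f) (p : FreeGroup Y) :
    IsOpen {g : FreeGroup X | FreeGroup.map f g = p} := by
  let _ : TopologicalSpace (FreeGroup Y) := ⊥
  have : DiscreteTopology (FreeGroup Y) := ⟨rfl⟩
  have h1 : Continuous fun x => (FreeGroup.of (f x) : FreeGroup Y) :=
    (IsLocallyConstant.iff_continuous _).1 (hf.comp (FreeGroup.of : Y → FreeGroup Y))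
  have h2 := FG.lift_continuous h1
  have h3 : IsOpen ({p} : Set (FreeGroup Y)) := isOpen_discrete _
  have h4 := h3.preimage h2
  have h5 : {g : FreeGroup X | FreeGroup.map f g = p} =
      FreeGroup.lift (fun x => (FreeGroup.of (f x) : FreeGroup Y)) ⁻¹' {p} := by
    ext g
    change FreeGroup.map f g = p ↔ FreeGroup.lift (fun x => (FreeGroup.of (f x) : FreeGroup Y)) g = p
    rw [FreeGroup.map_eq_lift]
    rfl
  rw [h5]
  exact h4

end Pool.Agent.W5h67.Four
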