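import Mathlib
import Pool.Agent.W5h67.FourA

/-!
# Short words in the free group over `C ⊕ D`
-/

set_option autoImplicit false
set_option linter.unusedSimpArgs false

open Filter Topology Set Pointwise

namespace Pool.Agent.W5h67.Four

open Pool.Agent.R821

universe u v w

section words

variable {C : Type u} {C' : Type w} {D : Type v} (φ : C → C')

/-- the induced map on letters -/
def fm : C ⊕ D → C' ⊕ D := Sum.map φ id

theorem red_mid {X : Type u} {L1 L L2 : List (X × Bool)}
    (h : FreeGroup.IsReduced (L1 ++ (L ++ L2))) : FreeGroup.IsReduced L :=
  (List.isChain_append.1 (List.isChain_append.1 h).2.1).1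

theorem map_mk_fm (L : List ((C ⊕ D) × Bool)) :
    FreeGroup.map (fm φ : C ⊕ D → C' ⊕ D) (FreeGroup.mk L) =
      FreeGroup.mk (L.map fun a => (fm φ a.1, a.2)) := by
  rw [FreeGroup.map.mk]

theorem fm_cancel {a b : C ⊕ D} (h : fm φ a = fm φ b) (hab : a ≠ b) :
    ∃ x y : C, a = Sum.inl x ∧ b = Sum.inl y ∧ φ x = φ y := by
  rcases a with x | d <;> rcases b with y | e
  · refine ⟨x, y, rfl, rfl, ?_⟩
    simpa [fm] using h
  · simp [fm] at h
  · simp [fm] at h
  · simp only [fm, Sum.map_inr, id, Sum.inr.injEq] at h
    exact absurd (congrArg Sum.inr h) hab

/-- Short reduced words: either no letter of `D` disappears in the quotient, or the word is a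
conjugate of `x y⁻¹` or `x⁻¹ y` by a letter of `D`. -/
theorem word_cases [DecidableEq (C' ⊕ D)] (L : List ((C ⊕ D) × Bool)) (hL : FreeGroup.IsReduced L)
    (h4 : L.length ≤ 4) :
    (∀ (d : D) (b : Bool), (Sum.inr d, b) ∈ L →
      (Sum.inr d, b) ∈ (FreeGroup.map (fm φ : C ⊕ D → C' ⊕ D) (FreeGroup.mk L)).toWord) ∨
    ∃ (d : D) (ε : Bool) (x y : C) (s : Bool), φ x = φ y ∧ x ≠ y ∧
      L = [(Sum.inr d, !ε), (Sum.inl x, s), (Sum.inl y, !s), (Sum.inr d, ε)] := by
  set g : (C ⊕ D) × Bool → (C' ⊕ D) × Bool := fun a => (fm φ a.1, a.2) with hg
  rw [map_mk_fm, FreeGroup.toWord_mk]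
  by_cases hred : FreeGroup.IsReduced (L.map g)
  · left
    intro d b hd
    rw [hred.reduce_eq]
    exact List.mem_map_of_mem (f := g) hd
  · rw [FreeGroup.isReduced_iff_not_step] at hred
    push Not at hred
    obtain ⟨M, hM⟩ := hred
    obtain ⟨M1, M2, z, b, hLM, hMM⟩ : ∃ M1 M2 z b, L.map g = M1 ++ (z, b) :: (z, !b) :: M2 ∧
        M = M1 ++ M2 := by
      generalize hLg : L.map g = N at hM
      cases hM with
      | not => exact ⟨_, _, _, _, rfl, rfl⟩
    obtain ⟨L1, L3, hL13, hL1, hL3⟩ := List.map_eq_append_iff.1 hLM
    obtain ⟨a1, L4, hL4, ha1, hL4'⟩ := List.map_eq_cons_iff.1 hL3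
    obtain ⟨a2, L2, hL2, ha2, hL2'⟩ := List.map_eq_cons_iff.1 hL4'
    subst hL4 hL2 hL13
    have hne : a1.1 ≠ a2.1 := by
      intro h
      have h1 : FreeGroup.IsReduced (a1 :: a2 :: L2) :=
        red_mid (L1 := L1) (L2 := []) (by simpa using hL)
      have h2 := (FreeGroup.isReduced_cons_cons.1 h1).1 h
      have h3 : a1.2 = b := congrArg Prod.snd ha1
      have h4 : a2.2 = !b := congrArg Prod.snd ha2
      rw [h3, h4] at h2
      cases b <;> simp at h2
    have hz1 : fm φ a1.1 = z := congrArg Prod.fst ha1
    have hz2 : fm φ a2.1 = z := congrArg Prod.fst ha2
    obtain ⟨x, y, hx, hy, hxy⟩ := fm_cancel φ (hz1.trans hz2.symm) hne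
    have hb1 : a1.2 = b := congrArg Prod.snd ha1
    have hb2 : a2.2 = !b := congrArg Prod.snd ha2
    obtain ⟨a11, a12⟩ := a1
    obtain ⟨a21, a22⟩ := a2
    simp only at hx hy hb1 hb2 hne
    subst hx hy hb1 hb2
    have hxy' : x ≠ y := fun h => hne (congrArg Sum.inl h)
    have hstep : FreeGroup.reduce (List.map g (L1 ++ (Sum.inl x, a12) :: (Sum.inl y, !a12) :: L2)) =
        FreeGroup.reduce (L1.map g ++ L2.map g) := by
      rw [hLM]
      rw [← hL1, ← hL2']
      exact FreeGroup.reduce.Step.eq FreeGroup.Red.Step.not
    rw [hstep]
    have hlen : L1.length + L2.length ≤ 2 := by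
      simp only [List.length_append, List.length_cons] at h4
      omega
    by_cases hred2 : FreeGroup.IsReduced (L1.map g ++ L2.map g)
    · left
      intro d b' hd
      rw [hred2.reduce_eq]
      simp only [List.mem_append, List.mem_cons, Prod.mk.injEq, reduceCtorEq, false_and,
        false_or] at hd
      rw [← List.map_append]
      exact List.mem_map_of_mem (f := g) (List.mem_append.2 hd)
    · rcases L1 with _ | ⟨α, L1⟩
      · rcases L2 with _ | ⟨β, L2⟩
        · exact absurd (by simp) hred2
        · rcases L2 with _ | ⟨γ, L2⟩
          · exact absurd (by simp) hred2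
          · rcases L2 with _ | ⟨δ, L2⟩
            · -- the two remaining letters are adjacent
              left
              have h5 : FreeGroup.IsReduced [β, γ] := red_mid (L1 := [(Sum.inl x, a12), (Sum.inl y, !a12)]) (L2 := []) (by simpa using hL)
              simp only [List.map_nil, List.nil_append, List.map_cons,
                FreeGroup.isReduced_cons_cons, FreeGroup.IsReduced.singleton, and_true,
                Classical.not_imp] at hred2 h5
              obtain ⟨h6, h7⟩ := hred2
              have h8 : β.1 ≠ γ.1 := fun h => h7 (h5 h)
              obtain ⟨x', y', hx', hy', -⟩ := fm_cancel φ h6 h8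
              intro d b' hd
              simp only [List.nil_append, List.mem_cons, Prod.mk.injEq, reduceCtorEq, false_and,
                false_or, List.not_mem_nil, or_false] at hd
              rcases hd with hd | hd
              · rw [← hd] at hx'
                simp at hx'
              · rw [← hd] at hy'
                simp at hy'
            · simp at hlen
      · rcases L1 with _ | ⟨β, L1⟩
        · rcases L2 with _ | ⟨γ, L2⟩
          · exact absurd (by simp) hred2
          · rcases L2 with _ | ⟨δ, L2⟩
            · -- the two remaining letters are the first and the last one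
              simp only [List.map_nil, List.map_cons, List.cons_append, List.nil_append,
                FreeGroup.isReduced_cons_cons, FreeGroup.IsReduced.singleton, and_true,
                Classical.not_imp] at hred2
              obtain ⟨h6, h7⟩ := hred2
              by_cases h8 : α.1 = γ.1
              · obtain ⟨α1, α2⟩ := α
                obtain ⟨γ1, γ2⟩ := γ
                simp only [hg] at h6 h7 h8
                subst h8
                rcases α1 with x' | d
                · left
                  intro d b' hd
                  simp at hd
                · right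
                  refine ⟨d, γ2, x, y, a12, hxy, hxy', ?_⟩
                  have h9 : α2 = !γ2 := by
                    cases α2 <;> cases γ2 <;> simp_all
                  rw [h9]
                  rfl
              · left
                obtain ⟨x', y', hx', hy', -⟩ := fm_cancel φ h6 h8
                intro d b' hd
                simp only [List.cons_append, List.nil_append, List.mem_cons, Prod.mk.injEq,
                  reduceCtorEq, false_and, false_or, List.not_mem_nil, or_false] at hd
                rcases hd with hd | hd
                · rw [← hd] at hx'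
                  simp at hx'
                · rw [← hd] at hy'
                  simp at hy'
            · simp at hlen
              omega
        · rcases L1 with _ | ⟨γ, L1⟩
          · rcases L2 with _ | ⟨δ, L2⟩
            · left
              have h5 : FreeGroup.IsReduced [α, β] := red_mid (L1 := []) (L2 := [(Sum.inl x, a12), (Sum.inl y, !a12)]) (by simpa using hL)
              simp only [List.map_nil, List.append_nil, List.map_cons,
                FreeGroup.isReduced_cons_cons, FreeGroup.IsReduced.singleton, and_true,
                Classical.not_imp] at hred2 h5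
              obtain ⟨h6, h7⟩ := hred2
              have h8 : α.1 ≠ β.1 := fun h => h7 (h5 h)
              obtain ⟨x', y', hx', hy', -⟩ := fm_cancel φ h6 h8
              intro d b' hd
              simp only [List.cons_append, List.nil_append, List.mem_cons, Prod.mk.injEq,
                reduceCtorEq, false_and, false_or, List.not_mem_nil, or_false] at hd
              rcases hd with hd | hd
              · rw [← hd] at hx'
                simp at hx'
              · rw [← hd] at hy'
                simp at hy'
            · simp at hlen
          · simp at hlen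
            omega

end words

end Pool.Agent.W5h67.Four
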