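import Mathlib
import Pool.Agent.W5h67.FourB

/-!
# The level `F_4(C ⊕ D)` is a `k`-space
-/

set_option autoImplicit false
set_option linter.unusedSectionVars false

open Filter Topology Set Pointwise

namespace Pool.Agent.W5h67.Four

open Pool.Agent.R821

universe u v w

attribute [local instance] FG.topF

/-! ### Levels of the free topological group -/

section levels

variable {X : Type u} [TopologicalSpace X]

/-- `F_n(X)`: the elements of the free group whose reduced word has length at most `n`. -/
def Fn (X : Type u) (n : ℕ) : Type u :=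
  {g : FreeGroup X // ∃ L : List (X × Bool), FreeGroup.IsReduced L ∧ L.length ≤ n ∧
    FreeGroup.mk L = g}

/-- `F_n(X)` carries the subspace topology of the free topological group `F(X)`. -/
noncomputable instance (n : ℕ) : TopologicalSpace (Fn X n) :=
  TopologicalSpace.induced Subtype.val (FG.topF X)

theorem mem_Fn {n : ℕ} {L : List (X × Bool)} (hL : L.length ≤ n) :
    ∃ L' : List (X × Bool), FreeGroup.IsReduced L' ∧ L'.length ≤ n ∧
      FreeGroup.mk L' = FreeGroup.mk L := by
  classical
  refine ⟨FreeGroup.reduce L, ?_, ?_, FreeGroup.reduce.self⟩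
  · exact FreeGroup.isReduced_iff_reduce_eq.2 FreeGroup.reduce.idem
  · exact (FreeGroup.Red.sublist FreeGroup.reduce.red).length_le.trans hL

/-- words of length at most one in the letters `E` -/
def One (E : Set X) : Set (FreeGroup X) := {1} ∪ FreeGroup.of '' E ∪ (FreeGroup.of '' E)⁻¹

theorem one_mem_One (E : Set X) : (1 : FreeGroup X) ∈ One E := Or.inl (Or.inl rfl)

theorem isCompact_One {E : Set X} (hE : IsCompact E) : IsCompact (One E) := by
  have h1 : IsCompact (FreeGroup.of '' E) := hE.image (FG.continuous_of X)
  exact (isCompact_singleton.union h1).union h1.inv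

theorem isCompact_pow {E : Set X} (hE : IsCompact E) (n : ℕ) : IsCompact (One E ^ n) := by
  induction n with
  | zero =>
    rw [pow_zero]
    exact isCompact_singleton
  | succ n ih =>
    rw [pow_succ]
    exact ih.mul (isCompact_One hE)

theorem mk_mem_pow {E : Set X} (n : ℕ) (L : List (X × Bool)) (hn : L.length ≤ n)
    (hE : ∀ a ∈ L, a.1 ∈ E) : FreeGroup.mk L ∈ One E ^ n := by
  induction n generalizing L with
  | zero =>
    rw [pow_zero]
    have h1 : L = [] := List.length_eq_zero_iff.1 (Nat.le_zero.1 hn)
    rw [h1]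
    rfl
  | succ n ih =>
    rw [pow_succ']
    rcases L with _ | ⟨a, L⟩
    · refine ⟨1, one_mem_One E, FreeGroup.mk [], ih [] (by simp) (by simp), ?_⟩
      rfl
    · refine ⟨FreeGroup.mk [a], ?_, FreeGroup.mk L, ih L ?_ ?_, ?_⟩
      · have h1 : a.1 ∈ E := hE a (by simp)
        obtain ⟨a1, a2⟩ := a
        cases a2
        · right
          refine ⟨a1, h1, ?_⟩
          rfl
        · left
          right
          exact ⟨a1, h1, rfl⟩
      · simpa using hn
      · intro b hb
        exact hE b (List.mem_cons_of_mem _ hb)
      · exact FreeGroup.mul_mk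

theorem exists_of_mem_pow {E : Set X} (n : ℕ) {g : FreeGroup X} (hg : g ∈ One E ^ n) :
    ∃ L : List (X × Bool), L.length ≤ n ∧ FreeGroup.mk L = g := by
  induction n generalizing g with
  | zero =>
    rw [pow_zero] at hg
    exact ⟨[], le_rfl, (Set.mem_one.1 hg).symm⟩
  | succ n ih =>
    rw [pow_succ'] at hg
    obtain ⟨a, ha, b, hb, rfl⟩ := hg
    obtain ⟨L, hL, rfl⟩ := ih hb
    rcases ha with (ha | ⟨x, -, rfl⟩) | ⟨x, -, hx⟩
    · rw [mem_singleton_iff] at ha
      subst ha
      exact ⟨L, hL.trans (Nat.le_succ n), by simp⟩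
    · refine ⟨(x, true) :: L, by simpa using hL, ?_⟩
      change _ = FreeGroup.mk [(x, true)] * FreeGroup.mk L
      rw [FreeGroup.mul_mk]
      rfl
    · refine ⟨(x, false) :: L, by simpa using hL, ?_⟩
      have h1 : a = FreeGroup.mk [(x, false)] := by
        rw [← inv_inv a, ← hx]
        rfl
      subst h1
      change _ = FreeGroup.mk [(x, false)] * FreeGroup.mk L
      rw [FreeGroup.mul_mk]
      rfl

theorem isCompact_level {E : Set X} (hE : IsCompact E) (n : ℕ) :
    IsCompact {q : Fn X n | q.1 ∈ One E ^ n} := by
  have h1 : IsInducing (fun q : Fn X n => (q.1 : FreeGroup X)) := ⟨rfl⟩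
  rw [h1.isCompact_iff]
  convert isCompact_pow hE n using 1
  ext g
  constructor
  · rintro ⟨q, hq, rfl⟩
    exact hq
  · intro hg
    obtain ⟨L, hL, hLg⟩ := exists_of_mem_pow n hg
    obtain ⟨L', h2, h3, h4⟩ := mem_Fn hL
    exact ⟨⟨g, L', h2, h3, h4.trans hLg⟩, hg, rfl⟩

end levels

/-! ### The action -/

section action

variable {C : Type u} {D : Type v} [DecidableEq C] [DecidableEq D]

/-- the discrete set on which the free group acts -/
abbrev SS (C : Type u) (D : Type v) : Type (max u v) := Option ((D × Bool) × Option C)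

/-- the origin of a block -/
abbrev org (C : Type u) {D : Type v} (b : D × Bool) : SS C D := some (b, none)

/-- the map underlying the action of `c ∈ C` -/
def sig0 (F : D × Bool → Finset C) (c : C) : SS C D → SS C D
  | none => none
  | some (b, o) => some (b, if c ∈ F b then Equiv.swap none (some c) o else o)

theorem sig0_invol (F : D × Bool → Finset C) (c : C) : Function.Involutive (sig0 F c) := by
  rintro (_ | ⟨b, o⟩)
  · rfl
  · simp only [sig0]
    split_ifs with h
    · simp
    · rfl

/-- the action of `c ∈ C` -/
def sig (F : D × Bool → Finset C) (c : C) : Equiv.Perm (SS C D) := (sig0_invol F c).toPerm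

theorem sig_inv (F : D × Bool → Finset C) (c : C) : (sig F c)⁻¹ = sig F c := rfl

/-- the action of `d ∈ D` -/
def tau (C : Type u) {D : Type v} [DecidableEq C] [DecidableEq D] (d : D) : Equiv.Perm (SS C D) :=
  Equiv.swap (org C (d, false)) none * Equiv.swap none (org C (d, true))

theorem tau_none (d : D) : tau C d none = org C (d, true) := by
  simp only [tau, Equiv.Perm.mul_apply, Equiv.swap_apply_left]
  exact Equiv.swap_apply_of_ne_of_ne (by simp [org]) (by simp [org])

theorem tau_inv_none (d : D) : (tau C d)⁻¹ none = org C (d, false) := by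
  rw [Equiv.Perm.inv_eq_iff_eq]
  have h1 : Equiv.swap (none : SS C D) (org C (d, true)) (org C (d, false)) = org C (d, false) :=
    Equiv.swap_apply_of_ne_of_ne (by simp [org]) (by simp [org])
  simp only [tau, Equiv.Perm.mul_apply]
  rw [h1, Equiv.swap_apply_left]

/-- the action of the generators -/
def act (F : D × Bool → Finset C) : C ⊕ D → Equiv.Perm (SS C D) := Sum.elim (sig F) (tau C)

theorem act_stab (F : D × Bool → Finset C) (d : D) (ε : Bool) (x y : C) (s : Bool)
    (h : FreeGroup.lift (act F)
      (FreeGroup.mk [(Sum.inr d, !ε), (Sum.inl x, s), (Sum.inl y, !s), (Sum.inr d, ε)]) none =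
        none) : x = y ∨ (x ∉ F (d, ε) ∧ y ∉ F (d, ε)) := by
  have h1 : sig F x (sig F y (org C (d, ε))) = org C (d, ε) := by
    rw [FreeGroup.lift_mk] at h
    simp only [List.map_cons, List.map_nil, List.prod_cons, List.prod_nil, mul_one,
      Equiv.Perm.mul_apply, act, Sum.elim_inl, Sum.elim_inr] at h
    have hu : ∀ (t : Bool) (c : C), (cond t (sig F c) (sig F c)⁻¹) = sig F c := by
      intro t c
      cases t <;> rfl
    rw [hu, hu] at h
    cases ε
    · simp only [Bool.not_false, cond_true, cond_false] at h
      rw [tau_inv_none] at h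
      rw [← Equiv.Perm.eq_inv_iff_eq, tau_inv_none] at h
      exact h
    · simp only [Bool.not_true, cond_true, cond_false] at h
      rw [tau_none] at h
      rw [Equiv.Perm.inv_eq_iff_eq, tau_none] at h
      exact h
  have h2 : sig F y (org C (d, ε)) = sig F x (org C (d, ε)) := by
    rw [← sig_inv F x, Equiv.Perm.eq_inv_iff_eq]
    exact h1
  have h3 : ∀ c, sig F c (org C (d, ε)) =
      some ((d, ε), if c ∈ F (d, ε) then some c else none) := by
    intro c
    change sig0 F c (some ((d, ε), none)) = _
    simp only [sig0]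
    split_ifs with h
    · simp
    · rfl
  rw [h3, h3] at h2
  simp only [Option.some.injEq, Prod.mk.injEq, true_and] at h2
  by_cases hx : x ∈ F (d, ε) <;> by_cases hy : y ∈ F (d, ε)
  · left
    rw [if_pos hx, if_pos hy] at h2
    exact (Option.some.inj h2).symm
  · rw [if_pos hx, if_neg hy] at h2
    cases h2
  · rw [if_neg hx, if_pos hy] at h2
    cases h2
  · right
    exact ⟨hx, hy⟩

end action

end Pool.Agent.W5h67.Four
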