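import Mathlib
import Pool.Agent.W5h67.FourC

/-!
# The level `F_4(C ⊕ D)` is a `k`-space
-/

set_option autoImplicit false
set_option linter.unusedSectionVars false

open Filter Topology Set Pointwise

namespace Pool.Agent.W5h67.Four

open Pool.Agent.R821

universe u v w

attribute [local instance] FG.topF

section loc

variable {C : Type u} {D : Type v} [TopologicalSpace C] [TopologicalSpace D] [DiscreteTopology D]

theorem locConst_sum {β : Type w} (h : C ⊕ D → β) (hC : IsLocallyConstant (h ∘ Sum.inl)) :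
    IsLocallyConstant h := by
  intro s
  rw [isOpen_sum_iff]
  exact ⟨hC s, isOpen_discrete _⟩

theorem locConst_of_finite [T1Space C] (c0 : C) (hc : ∀ c, c ≠ c0 → IsOpen ({c} : Set C))
    {β : Type w} (g : C → β) (β0 : β) (T : Set C) (hT : T.Finite) (h0 : c0 ∉ T)
    (hg : ∀ c, c ∉ T → g c = β0) : IsLocallyConstant g := by
  intro s
  by_cases hs : β0 ∈ s
  · have h1 : (g ⁻¹' s)ᶜ ⊆ T := by
      intro c hc1
      by_contra h2
      refine hc1 ?_
      change g c ∈ s
      rw [hg c h2]
      exact hs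
    exact isClosed_compl_iff.1 (hT.subset h1).isClosed
  · have h1 : g ⁻¹' s ⊆ T := by
      intro c hc1
      by_contra h2
      refine hs ?_
      rw [← hg c h2]
      exact hc1
    rw [← Set.biUnion_of_singleton (g ⁻¹' s)]
    refine isOpen_biUnion fun c hc1 => hc c ?_
    rintro rfl
    exact h0 (h1 hc1)

theorem locConst_act [T1Space C] [DecidableEq C] [DecidableEq D] (c0 : C)
    (hc : ∀ c, c ≠ c0 → IsOpen ({c} : Set C)) (F : D × Bool → Finset C) (hF : ∀ b, c0 ∉ F b)
    (s : SS C D) : IsLocallyConstant (fun c : C => sig F c s) := by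
  rcases s with _ | ⟨b, o⟩
  · exact IsLocallyConstant.const (none : SS C D)
  · refine locConst_of_finite c0 hc _ (some (b, o)) (F b : Set C) (Finset.finite_toSet _)
      (by simpa using hF b) ?_
    intro c hcF
    change sig0 F c (some (b, o)) = _
    have : c ∉ F b := by simpa using hcF
    simp only [sig0]
    rw [if_neg this]

end loc

section main

variable {C : Type u} {D : Type v} [TopologicalSpace C] [CompactSpace C] [T2Space C]
  [TopologicalSpace D] [DiscreteTopology D]

/-- the four letter words `d⁻¹ x y⁻¹ d` and the like -/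
def cw (d : D) (ε s : Bool) (x y : C) : FreeGroup (C ⊕ D) :=
  FreeGroup.mk [(Sum.inr d, !ε), (Sum.inl x, s), (Sum.inl y, !s), (Sum.inr d, ε)]

theorem lt_continuous {X : Type u} [TopologicalSpace X] (b : Bool) :
    Continuous fun x : X => (FreeGroup.mk [(x, b)] : FreeGroup X) := by
  cases b
  · have h1 : (fun x : X => (FreeGroup.mk [(x, false)] : FreeGroup X)) =
        fun x => (FreeGroup.of x)⁻¹ := rfl
    rw [h1]
    exact (FG.continuous_of X).inv
  · exact FG.continuous_of X

theorem cw_eq (d : D) (ε s : Bool) (x y : C) : cw d ε s x y =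
    FreeGroup.mk [(Sum.inr d, !ε)] * (FreeGroup.mk [(Sum.inl x, s)] *
      (FreeGroup.mk [(Sum.inl y, !s)] * FreeGroup.mk [(Sum.inr d, ε)])) := by
  rw [FreeGroup.mul_mk, FreeGroup.mul_mk, FreeGroup.mul_mk]
  rfl

theorem cw_continuous (d : D) (ε s : Bool) :
    Continuous fun p : C × C => (cw d ε s p.1 p.2 : FreeGroup (C ⊕ D)) := by
  simp only [cw_eq]
  have h1 : ∀ b : Bool, Continuous fun x : C => (FreeGroup.mk [(Sum.inl x, b)] :
      FreeGroup (C ⊕ D)) := fun b => (lt_continuous b).comp continuous_inl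
  exact continuous_const.mul (((h1 s).comp continuous_fst).mul
    (((h1 (!s)).comp continuous_snd).mul continuous_const))

theorem cw_self (d : D) (ε s : Bool) (x : C) : cw d ε s x x = (1 : FreeGroup (C ⊕ D)) := by
  rw [cw_eq]
  have h1 : ∀ (z : C ⊕ D) (b : Bool), (FreeGroup.mk [(z, b)] : FreeGroup (C ⊕ D)) *
      FreeGroup.mk [(z, !b)] = 1 := by
    intro z b
    rw [FreeGroup.mul_mk, FreeGroup.one_eq_mk]
    exact Quot.sound FreeGroup.Red.Step.cons_not
  have h2 : (FreeGroup.mk [(Sum.inl x, s)] : FreeGroup (C ⊕ D)) *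
      (FreeGroup.mk [(Sum.inl x, !s)] * FreeGroup.mk [(Sum.inr d, ε)]) =
        FreeGroup.mk [(Sum.inr d, ε)] := by
    rw [← mul_assoc, h1, one_mul]
  rw [h2]
  have h3 := h1 (Sum.inr d) (!ε)
  rwa [Bool.not_not] at h3

/-- **Main theorem**: if `C` is compact Hausdorff with at most one non-isolated point and `D` is
discrete, then `F_4(C ⊕ D)` is a `k`-space. -/
theorem isClosed_of_k (c0 : C) (hc : ∀ c, c ≠ c0 → IsOpen ({c} : Set C))
    (A : Set (Fn (C ⊕ D) 4)) (hA : ∀ K : Set (Fn (C ⊕ D) 4), IsCompact K → IsClosed (A ∩ K)) :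
    IsClosed A := by
  classical
  have hval : Continuous (fun q : Fn (C ⊕ D) 4 => (q.1 : FreeGroup (C ⊕ D))) :=
    continuous_induced_dom
  rw [← isOpen_compl_iff, isOpen_iff_mem_nhds]
  intro p hp
  by_cases hp1 : p.1 = 1
  · -- the neutral element
    -- the words without letters from `D`
    have hK0 := isCompact_level (X := C ⊕ D) (isCompact_range (continuous_inl (X := C) (Y := D))) 4
    have hKd : ∀ d : D, IsCompact {q : Fn (C ⊕ D) 4 | q.1 ∈ One (range Sum.inl ∪ {Sum.inr d}) ^ 4} :=
      fun d => isCompact_level ((isCompact_range continuous_inl).union isCompact_singleton) 4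
    have hnb : ∀ K : Set (Fn (C ⊕ D) 4), IsCompact K → ∃ O : Set (FreeGroup (C ⊕ D)), IsOpen O ∧
        (1 : FreeGroup (C ⊕ D)) ∈ O ∧ ∀ q : Fn (C ⊕ D) 4, q.1 ∈ O → q ∈ K → q ∉ A := by
      intro K hK
      have h1 : (A ∩ K)ᶜ ∈ 𝓝 p := (hA K hK).isOpen_compl.mem_nhds fun h => hp h.1
      have h2 : IsInducing (fun q : Fn (C ⊕ D) 4 => (q.1 : FreeGroup (C ⊕ D))) := ⟨rfl⟩
      rw [h2.nhds_eq_comap, Filter.mem_comap] at h1
      obtain ⟨V, hV, hVK⟩ := h1
      obtain ⟨O, hOV, hO, hpO⟩ := mem_nhds_iff.1 hV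
      refine ⟨O, hO, ?_, ?_⟩
      · rw [← hp1]
        exact hpO
      · intro q hqO hqK hqA
        exact hVK (show q ∈ _ from hOV hqO) ⟨hqA, hqK⟩
    obtain ⟨O0, hO0, h10, hOK0⟩ := hnb _ hK0
    choose Od hOd h1d hOKd using fun d => hnb _ (hKd d)
    -- finite exceptional sets
    have hF : ∀ b : D × Bool, ∃ F : Finset C, c0 ∉ F ∧ ∀ x y : C, x ∉ F → y ∉ F →
        ∀ s : Bool, cw b.1 b.2 s x y ∈ Od b.1 := by
      intro b
      have h1 : ∀ s : Bool, ∃ V : Set C, IsOpen V ∧ c0 ∈ V ∧ ∀ x ∈ V, ∀ y ∈ V,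
          cw b.1 b.2 s x y ∈ Od b.1 := by
        intro s
        have h2 : (fun p : C × C => (cw b.1 b.2 s p.1 p.2 : FreeGroup (C ⊕ D))) ⁻¹' (Od b.1) ∈
            𝓝 (c0, c0) := by
          refine (cw_continuous b.1 b.2 s).continuousAt.preimage_mem_nhds ?_
          change Od b.1 ∈ 𝓝 (cw b.1 b.2 s c0 c0)
          rw [cw_self]
          exact (hOd b.1).mem_nhds (h1d b.1)
        rw [nhds_prod_eq, Filter.mem_prod_self_iff] at h2
        obtain ⟨V, hV, hV2⟩ := h2
        obtain ⟨W, hWV, hW, hcW⟩ := mem_nhds_iff.1 hV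
        exact ⟨W, hW, hcW, fun x hx y hy => hV2 (mk_mem_prod (hWV hx) (hWV hy))⟩
      choose V hVo hV0 hV using h1
      have hVo' : IsOpen (V true ∩ V false) := (hVo true).inter (hVo false)
      have hfin : ((V true ∩ V false)ᶜ).Finite := by
        have h3 : IsCompact (V true ∩ V false)ᶜ := hVo'.isClosed_compl.isCompact
        refine h3.finite ?_
        rw [isDiscrete_iff_forall_mem_exists_isOpen]
        intro c hcV
        refine ⟨{c}, hc c ?_, ?_⟩
        · rintro rfl
          exact hcV ⟨hV0 true, hV0 false⟩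
        · ext z
          simp only [mem_inter_iff, mem_singleton_iff]
          constructor
          · rintro ⟨h, -⟩
            exact h
          · rintro rfl
            exact ⟨rfl, hcV⟩
      refine ⟨hfin.toFinset, ?_, ?_⟩
      · simp only [Set.Finite.mem_toFinset, mem_compl_iff, not_not]
        exact ⟨hV0 true, hV0 false⟩
      · intro x y hx hy s
        simp only [Set.Finite.mem_toFinset, mem_compl_iff, not_not] at hx hy
        cases s
        · exact hV false x hx.2 y hy.2
        · exact hV true x hx.1 y hy.1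
    choose F hF0 hF using hF
    -- the neighbourhood
    have hstab : IsOpen {g : FreeGroup (C ⊕ D) | FreeGroup.lift (act F) g none = none} := by
      refine isOpen_stab (act F) (fun s => locConst_sum _ ?_) (fun s => locConst_sum _ ?_) none
      · exact locConst_act c0 hc F hF0 s
      · exact locConst_act c0 hc F hF0 s
    have hmap : IsOpen {g : FreeGroup (C ⊕ D) | FreeGroup.map
        (fm (fun _ : C => ()) : C ⊕ D → Unit ⊕ D) g = 1} := by
      refine isOpen_map_eq _ (locConst_sum _ ?_) _
      exact IsLocallyConstant.const _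
    have hO := (hO0.inter hstab).inter hmap
    refine mem_of_superset ((hO.preimage hval).mem_nhds ?_) ?_
    · refine ⟨⟨?_, ?_⟩, ?_⟩
      · change p.1 ∈ O0
        rw [hp1]
        exact h10
      · change FreeGroup.lift (act F) p.1 none = none
        rw [hp1, map_one]
        rfl
      · change FreeGroup.map _ p.1 = 1
        rw [hp1, map_one]
    · rintro q ⟨⟨hq0, hqs⟩, hqm⟩ hqA
      change FreeGroup.lift (act F) q.1 none = none at hqs
      change FreeGroup.map (fm (fun _ : C => ()) : C ⊕ D → Unit ⊕ D) q.1 = 1 at hqm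
      obtain ⟨L, hL, hL4, hLq⟩ := q.2
      rcases word_cases (fun _ : C => ()) L hL hL4 with h | ⟨d, ε, x, y, s, -, hxy, hLw⟩
      · rw [hLq, hqm, FreeGroup.toWord_one] at h
        refine hOK0 q hq0 ?_ hqA
        change q.1 ∈ One (range Sum.inl) ^ 4
        rw [← hLq]
        refine mk_mem_pow 4 L hL4 ?_
        rintro ⟨a | d, b⟩ hab
        · exact ⟨a, rfl⟩
        · exact absurd (h d b hab) (List.not_mem_nil)
      · rw [← hLq, hLw] at hqs
        have hqd : q.1 ∈ One (range Sum.inl ∪ {Sum.inr d}) ^ 4 := by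
          rw [← hLq]
          refine mk_mem_pow 4 L hL4 ?_
          rw [hLw]
          intro a ha
          simp only [List.mem_cons, List.not_mem_nil, or_false] at ha
          rcases ha with rfl | rfl | rfl | rfl
          · exact Or.inr rfl
          · exact Or.inl ⟨x, rfl⟩
          · exact Or.inl ⟨y, rfl⟩
          · exact Or.inr rfl
        rcases act_stab F d ε x y s hqs with h | ⟨hx, hy⟩
        · exact hxy h
        · refine hOKd d q ?_ hqd hqA
          rw [← hLq, hLw]
          exact hF (d, ε) x y hx hy s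
  · -- other elements
    obtain ⟨L, hL, hL4, hLp⟩ := p.2
    set T : Set C := {c | c ≠ c0 ∧ ∃ b, (Sum.inl c, b) ∈ L} with hT
    have hTfin : T.Finite := by
      have h1 : {a | a ∈ L}.Finite := List.finite_toSet L
      refine Set.Finite.subset (h1.image fun a => Sum.elim id (fun _ => c0) a.1) ?_
      rintro c ⟨-, b, hb⟩
      exact ⟨_, hb, rfl⟩
    have hT0 : c0 ∉ T := fun h => h.1 rfl
    set φ : C → C := fun c => if c ∈ T then c else c0 with hφ
    have hφloc : IsLocallyConstant φ := by
      refine locConst_of_finite c0 hc φ c0 T hTfin hT0 ?_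
      intro c hcT
      simp only [hφ]
      rw [if_neg hcT]
    have hΦp : FreeGroup.map (fm φ : C ⊕ D → C ⊕ D) p.1 = p.1 := by
      rw [← hLp, map_mk_fm]
      congr 1
      conv_rhs => rw [← List.map_id L]
      refine List.map_congr_left ?_
      rintro ⟨a | d, b⟩ hab
      · have h1 : φ a = a := by
          simp only [hφ]
          split_ifs with h2
          · rfl
          · by_contra h3
            exact h2 ⟨fun h => h3 h.symm, b, hab⟩
        simp [fm, h1]
      · simp [fm]
    have hopen : IsOpen {g : FreeGroup (C ⊕ D) | FreeGroup.map (fm φ : C ⊕ D → C ⊕ D) g = p.1} := by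
      refine isOpen_map_eq _ (locConst_sum _ ?_) _
      exact hφloc.comp Sum.inl
    set D0 : Set D := {d | ∃ b, (Sum.inr d, b) ∈ p.1.toWord} with hD0
    have hD0fin : D0.Finite := by
      have h1 : {a | a ∈ p.1.toWord}.Finite := List.finite_toSet _
      have h2 : (Sum.inr '' D0 : Set (C ⊕ D)).Finite := by
        refine Set.Finite.subset (h1.image Prod.fst) ?_
        rintro _ ⟨d, ⟨b, hb⟩, rfl⟩
        exact ⟨_, hb, rfl⟩
      exact h2.of_finite_image Sum.inr_injective.injOn
    have hK := isCompact_level (X := C ⊕ D) ((isCompact_range (continuous_inl (X := C) (Y := D))).union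
      (hD0fin.image Sum.inr).isCompact) 4
    have hcl := hA _ hK
    have hO2 := hcl.isOpen_compl.inter (hopen.preimage hval)
    refine mem_of_superset (hO2.mem_nhds ⟨fun h => hp h.1, hΦp⟩) ?_
    rintro q ⟨hq1, hq2⟩ hqA
    refine hq1 ⟨hqA, ?_⟩
    change FreeGroup.map (fm φ : C ⊕ D → C ⊕ D) q.1 = p.1 at hq2
    obtain ⟨M, hM, hM4, hMq⟩ := q.2
    change q.1 ∈ One (range Sum.inl ∪ Sum.inr '' D0) ^ 4
    rcases word_cases φ M hM hM4 with h | ⟨d, ε, x, y, s, hxy, -, hMw⟩
    · rw [hMq, hq2] at h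
      rw [← hMq]
      refine mk_mem_pow 4 M hM4 ?_
      rintro ⟨a | d, b⟩ hab
      · exact Or.inl ⟨a, rfl⟩
      · exact Or.inr ⟨d, ⟨b, h d b hab⟩, rfl⟩
    · exfalso
      refine hp1 ?_
      rw [← hq2, ← hMq, hMw, map_mk_fm]
      have h1 : (FreeGroup.mk (List.map (fun a : (C ⊕ D) × Bool => ((fm φ a.1 : C ⊕ D), a.2))
          [(Sum.inr d, !ε), (Sum.inl x, s), (Sum.inl y, !s), (Sum.inr d, ε)])) =
          cw d ε s (φ x) (φ y) := rfl
      rw [h1, hxy, cw_self]

end main

end Pool.Agent.W5h67.Four
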