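import Mathlib
import Pool.Agent.W5h67.FourD

/-!
# `F_4(C ⊕ D)` is a `k_R`-space
-/

set_option autoImplicit false
set_option linter.unusedSectionVars false

open Filter Topology Set Pointwise

namespace Pool.Agent.W5h67.Four

open Pool.Agent.R821

universe u v w

attribute [local instance] FG.topF

theorem completelyRegular_sum (X : Type u) (Y : Type v) [TopologicalSpace X] [TopologicalSpace Y]
    [CompletelyRegularSpace X] [CompletelyRegularSpace Y] : CompletelyRegularSpace (X ⊕ Y) := by
  refine ⟨?_⟩
  intro x K hK hx
  rw [isClosed_sum_iff] at hK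
  rcases x with x | y
  · obtain ⟨f, hf, hfx, hfK⟩ := CompletelyRegularSpace.completely_regular x _ hK.1 hx
    refine ⟨Sum.elim f (fun _ => 1), ?_, hfx, ?_⟩
    · exact continuous_sum_dom.2 ⟨hf, continuous_const⟩
    · rintro (z | z) hz
      · exact hfK hz
      · rfl
  · obtain ⟨f, hf, hfx, hfK⟩ := CompletelyRegularSpace.completely_regular y _ hK.2 hx
    refine ⟨Sum.elim (fun _ => 1) f, ?_, hfx, ?_⟩
    · exact continuous_sum_dom.2 ⟨continuous_const, hf⟩
    · rintro (z | z) hz
      · rfl
      · exact hfK hz

theorem t35_sum (X : Type u) (Y : Type v) [TopologicalSpace X] [TopologicalSpace Y]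
    [T35Space X] [T35Space Y] : T35Space (X ⊕ Y) := by
  have := completelyRegular_sum X Y
  exact { }

theorem t35_level (X : Type u) [TopologicalSpace X] [T35Space X] (n : ℕ) : T35Space (Fn X n) := by
  have h1 : T2Space (FreeGroup X) := FG.topF_t2
  have h2 : CompletelyRegularSpace (FreeGroup X) := by
    let _ : UniformSpace (FreeGroup X) := IsTopologicalGroup.rightUniformSpace (FreeGroup X)
    exact UniformSpace.toCompletelyRegularSpace
  have h3 : T35Space (FreeGroup X) := { }
  exact inferInstanceAs (T35Space {g : FreeGroup X // ∃ L : List (X × Bool),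
    FreeGroup.IsReduced L ∧ L.length ≤ n ∧ FreeGroup.mk L = g})

/-- `Y` is a `k`-space: a set is closed whenever its trace on every compact set `K` is closed in
`K`. -/
def IsK (Y : Type u) [TopologicalSpace Y] : Prop :=
  ∀ A : Set Y, (∀ K : Set Y, IsCompact K → IsClosed (Subtype.val ⁻¹' A : Set K)) → IsClosed A

/-- `Y` is a `k_R`-space: it is Tychonoff and every real function on `Y` whose restrictions to the
compact subsets are continuous is continuous. -/
def IsKR (Y : Type u) [TopologicalSpace Y] : Prop :=
  T35Space Y ∧ ∀ f : Y → ℝ, (∀ K : Set Y, IsCompact K → ContinuousOn f K) → Continuous f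

theorem IsK.isKR {Y : Type u} [TopologicalSpace Y] [T35Space Y] (h : IsK Y) : IsKR Y := by
  refine ⟨inferInstance, fun f hf => ?_⟩
  rw [continuous_iff_isClosed]
  intro Z hZ
  refine h _ fun K hK => ?_
  have h1 := (continuousOn_iff_continuous_domRestrict.1 (hf K hK))
  exact hZ.preimage h1

theorem isK_of_closed {Y : Type u} [TopologicalSpace Y] [T2Space Y]
    (h : ∀ A : Set Y, (∀ K : Set Y, IsCompact K → IsClosed (A ∩ K)) → IsClosed A) : IsK Y := by
  intro A hA
  refine h A fun K hK => ?_
  have h1 := (hK.isClosed.isClosedEmbedding_subtypeVal.isClosedMap _ (hA K hK))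
  rw [Subtype.image_preimage_coe, inter_comm] at h1
  exact h1

/-- Let `C` be a compact Hausdorff space with at most one non-isolated point and let `D` be a
discrete space. Then `F_4(C ⊕ D)` is a `k`-space and a `k_R`-space. -/
theorem main (C : Type u) (D : Type v) [TopologicalSpace C] [CompactSpace C] [T2Space C]
    [TopologicalSpace D] [DiscreteTopology D] (c0 : C) (hc : ∀ c, c ≠ c0 → IsOpen ({c} : Set C)) :
    IsK (Fn (C ⊕ D) 4) ∧ IsKR (Fn (C ⊕ D) 4) := by
  have h0 : T35Space (C ⊕ D) := t35_sum C D
  have h1 : T35Space (Fn (C ⊕ D) 4) := t35_level (C ⊕ D) 4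
  have h2 : IsK (Fn (C ⊕ D) 4) := isK_of_closed fun A hA => isClosed_of_k c0 hc A hA
  exact ⟨h2, h2.isKR⟩

/-- the convergent sequence `{0} ∪ {1/m : m ≥ 1}` in the real line -/
def ConvSeq : Set ℝ := {x | x = 0 ∨ ∃ m : ℕ, 1 ≤ m ∧ x = 1 / m}

theorem isCompact_convSeq : IsCompact ConvSeq := by
  have h1 : Tendsto (fun n : ℕ => (1 : ℝ) / (n + 1)) atTop (𝓝 0) :=
    tendsto_one_div_add_atTop_nhds_zero_nat
  have h2 := h1.isCompact_insert_range
  convert h2 using 1
  ext x
  simp only [ConvSeq, mem_ofPred_eq, mem_insert_iff, mem_range]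
  constructor
  · rintro (h | ⟨m, hm, rfl⟩)
    · exact Or.inl h
    · refine Or.inr ⟨m - 1, ?_⟩
      rw [Nat.cast_sub hm]
      simp
  · rintro (h | ⟨m, rfl⟩)
    · exact Or.inl h
    · exact Or.inr ⟨m + 1, by omega, by push_cast; rfl⟩

theorem isOpen_convSeq (x : ConvSeq) (hx : x.1 ≠ 0) : IsOpen ({x} : Set ConvSeq) := by
  obtain ⟨x, h | ⟨m, hm, rfl⟩⟩ := x
  · exact absurd h hx
  · refine ⟨Ioo ((1 : ℝ) / (m + 1)) (if m = 1 then 2 else 1 / ((m : ℝ) - 1)), isOpen_Ioo, ?_⟩
    have hm0 : (1 : ℝ) ≤ m := by exact_mod_cast hm
    ext ⟨y, hy⟩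
    simp only [mem_preimage, mem_Ioo, mem_singleton_iff]
    constructor
    · rintro ⟨h1, h2⟩
      rcases hy with rfl | ⟨k, hk, rfl⟩
      · exfalso
        have : (0 : ℝ) < 1 / (m + 1) := by positivity
        linarith
      · have hk0 : (1 : ℝ) ≤ k := by exact_mod_cast hk
        have h3 : (k : ℝ) < m + 1 := by
          rw [one_div_lt_one_div (by positivity) (by positivity)] at h1
          exact h1
        have h4 : k ≤ m := by
          have : k < m + 1 := by exact_mod_cast h3
          omega
        have h5 : m ≤ k := by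
          by_cases hm1 : m = 1
          · omega
          · rw [if_neg hm1] at h2
            have hm2 : (2 : ℝ) ≤ m := by
              have : 2 ≤ m := by omega
              exact_mod_cast this
            rw [one_div_lt_one_div (by positivity) (by linarith)] at h2
            have h6 : (m : ℝ) < k + 1 := by linarith
            have : m < k + 1 := by exact_mod_cast h6
            omega
        have h6 : k = m := le_antisymm h4 h5
        refine Subtype.ext ?_
        change (1 : ℝ) / k = 1 / m
        rw [h6]
    · intro hyy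
      have hyy' : y = 1 / (m : ℝ) := congrArg Subtype.val hyy
      subst hyy'
      constructor
      · rw [one_div_lt_one_div (by positivity) (by positivity)]
        linarith
      · split_ifs with hm1
        · subst hm1
          norm_num
        · have hm2 : (2 : ℝ) ≤ m := by
            have : 2 ≤ m := by omega
            exact_mod_cast this
          rw [one_div_lt_one_div (by positivity) (by linarith)]
          linarith

end Pool.Agent.W5h67.Four
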